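import Pool.Agent.Run7.h661.V.Shift

/-!
# A curvature flow of regular networks with a blow-up limit of multiplicity two
-/

open Set Filter Topology
open scoped ContDiff

namespace Pool.Agent.Results.MP_cf7202_gt.DoubleRay

open Run7.h661z

/-- There is a curvature flow of regular networks (eleven curves) in a disc, smooth up to the
initial time, with a singular time `T`, and a sequence of times `t n → T`, along which the networks
rescaled around the origin (Huisken's rescaling) converge in `C¹_loc` to the following shrinker: a
segment `[-b,b]` (the limit of the `bar`), an embedded arc `C` with `k + x^⊥ = 0` from `b` to `-b` in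
the upper half-plane and its mirror image (the limits of the two `cap`s), and the two half-lines
`[b,∞)` and `(-∞,-b]`, each of which is the limit of two different curves of the network (the upper
and the lower `arm`), so that its multiplicity is two. The four `short` curves collapse to the
points `±b`. -/
theorem result : ∃ (r T : ℝ) (γ : Arc → ℝ → ℝ → ℂ), 0 < r ∧ 0 < T ∧
    IsNetworkFlow (Metric.ball (0:ℂ) r) T γ ∧
    (∀ i, ContDiffOn ℝ ∞ (fun q : ℝ × ℝ => γ i q.1 q.2) (Ico 0 T ×ˢ Icc 0 1)) ∧
    IsSingularTime (Metric.ball (0:ℂ) r) T γ ∧
    ∃ (t : ℕ → ℝ) (b : ℝ) (C : ℝ → ℂ), (∀ n, t n ∈ Ioo 0 T) ∧ Tendsto t atTop (𝓝 T) ∧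
      ConvergesToCell (fun n i => rescale T (t n) 0 (γ i (t n))) b C :=
  Run7.h661v.main2

end Pool.Agent.Results.MP_cf7202_gt.DoubleRay
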